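import Pool.Agent.H34.BL.Dens0
import Pool.Agent.H34.BL.Tail
import Pool.Agent.H34.BL.Grp
import Pool.Agent.H36.LC.All
import Pool.Agent.H36.LX.T.WIN
import Pool.Agent.H36.LV.T.COV
import Pool.Agent.H36.LV.T.FKG
import Pool.Agent.H36.LV.T.PAIR
import Pool.Agent.H36.LV.T.CORE39
import Pool.Agent.H36.LV.T.NUM
import Pool.Agent.H36.LV.T.THM
import Pool.Agent.H36.LV.T.RATE

/-!
# Project LV: assembly
-/

set_option autoImplicit false

namespace Pool.Agent.H36.LV

open Pool.Agent.H36.BK Pool.Agent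

theorem thm_all : S_thmL :=
  Pool.Agent.H36.LV.T.thm
    (Pool.Agent.H36.LV.T.core Pool.Agent.H36.LV.T.cov
      (Pool.Agent.H36.LV.T.pair Pool.Agent.H36.LV.T.fkg (Pool.Agent.H36.BK.near H82.BK.hmax))
      Pool.Agent.H34.BL.dens0 Pool.Agent.H34.BL.tail1 Pool.Agent.H34.BL.grp1
      Pool.Agent.H36.LX.T.win)
    Pool.Agent.H36.LC.clu_all Pool.Agent.H36.LV.T.num

theorem rate_all : S_rateL := Pool.Agent.H36.LV.T.rate thm_all

end Pool.Agent.H36.LV
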