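import Pool.Agent.H36.LX.Stm

/-!
# Project LV: `w^(13/10)` elements (local variance)

Strengthening of project LX (`11/10 → 13/10`): the almost independence of pairs is obtained inside the
window. Every stub `S_x : Prop` is to be proved as `theorem x : S_x`, or `theorem x : S_a → S_b → S_x` if the
docstring names stubs it uses (namespace `Pool.Agent.H36.LV.T`, file `Pool/Agent/H36/LV/T/<NAME>.lean`).
All of `Pool.Agent.H36.BK.All` may be used.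
-/

set_option autoImplicit false

open Finset Filter Topology
open scoped Classical

namespace Pool.Agent.H36.LV

open Pool.Agent.H36.LX Pool.Agent.H36.LC Pool.Agent.H36.BK Pool.Agent.H36.BK.LW
  Pool.Agent.H13R3.WB Pool.Agent.H931R3.Bal

/-- LV-COV. Compare `S_iid`, `S_img`, `S_var`, `S_cov` of project BK (`H96/BK/Var.lean`, `H36/BK/BK07.lean`)
with `ψ v = #{s ∈ [o, o + L) : v ≤ s} ∈ [0, L]` in place of `M - v`: `Ψ f = ∑ x, ψ (f x)`, the sum is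
`T ∑_f (Ψ f)^2 - (∑_f Ψ f)^2 ≤ T ∑_f (Ψ f - c)^2`, `c = n * mean of ψ`. Over all maps
`∑_f (Ψ f - c)^2 = M^n n Var ψ ≤ M^n n L²/4`; for injective maps `Ψ f` depends only on the image, so the
injective `f ∈ Om` contribute at most `(eN / n!) M^n n L²/4`; the non injective ones at most `(n L)^2` times
their number `o(M^n)`; `T ≥ eN * choose M n`. All this is uniform in `o`, `L` (everything scales with `L²`). -/
def S_covL : Prop :=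
  ∀ (α : Type) [Fintype α] [PartialOrder α], ∀ᶠ M : ℕ in atTop, ∀ o L : ℕ,
    ∑ x : α, ∑ y : α, ∑ s ∈ Ico o (o + L), ∑ t ∈ Ico o (o + L), Hs α M x y s t ≤
      (Fintype.card α : ℝ) * (L : ℝ) ^ 2 * ((Om α M).card : ℝ) ^ 2

/-- LV-FKG. FKG inequality on the sublattice of the `f ∈ Om` with `f x`, `f y` in the window (four
functions theorem, as for `S_fkg`, see `Pool/Agent/H82/BK/Four.lean`). -/
def S_fkgL : Prop :=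
  ∀ (α : Type) [Fintype α] [PartialOrder α] (M : ℕ) (x y : α) (o L s t : ℕ),
    cnt α M (fun f => (f x ∈ Ico o (o + L) ∧ f y ∈ Ico o (o + L)) ∧ f x ≤ s) *
      cnt α M (fun f => (f x ∈ Ico o (o + L) ∧ f y ∈ Ico o (o + L)) ∧ f y ≤ t) ≤
    cnt α M (fun f => (f x ∈ Ico o (o + L) ∧ f y ∈ Ico o (o + L)) ∧ f x ≤ s ∧ f y ≤ t) *
      cnt α M (fun f => f x ∈ Ico o (o + L) ∧ f y ∈ Ico o (o + L))

/-- LV-PAIR. From `S_fkgL`, `S_near` (`near H82.BK.hmax` in `H36/BK/All.lean`; compare `H36/BK/BK15.lean`).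
Let `E` be the event that `f x` and `f y` are in the window, `e = P(E) ≥ 1 - 2 θ`, and
`q s t = P(f x = o + s, f y = o + t | E)`, `s, t < L = R b`. The marginals are at most `(K/L)/e ≤ 2 K/L`, and
`hh L q s t = P(A ∩ B | E) - P(A | E) P(B | E) ≥ 0` (`S_fkgL`), `A = {f x ≤ o + s}`, `B = {f y ≤ o + t}`. As
`|P(A | E) - P(A)| ≤ 1 - e ≤ 2 θ` for every event, `hh L q s t ≤ Hs x y (o+s) (o+t) / T² + 6 θ`, so the sum is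
at most `(c + 6 θ) L²`. `S_near` (with `2 K`, `c + 8 θ`): error `4 K / R + 12 R lam`. Finally
`P(f x < f y | E)` is within `2 θ` of `P(f x < f y)`, and the marginals of `q` are within `3 θ` (sum of the
absolute values of the differences) of `winD o L (pm x)`, `winD o L (pm y)`, so `om` changes by `≤ 6 θ`. -/
def S_pairL : Prop :=
  ∀ (α : Type) [Fintype α] [PartialOrder α] (M o L R b : ℕ) (x y : α) (K c lam θ : ℝ), 1 ≤ M →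
    2 ≤ L → L = R * b → 1 ≤ R → 1 ≤ b → 1 ≤ K → 0 ≤ c → 0 ≤ θ → θ ≤ 1 / 8 →
    (∀ j, pm α M x j * L ≤ K) → (∀ j, pm α M y j * L ≤ K) →
    1 - θ ≤ ∑ t ∈ range L, pm α M x (o + t) → 1 - θ ≤ ∑ t ∈ range L, pm α M y (o + t) →
    ∑ s ∈ Ico o (o + L), ∑ t ∈ Ico o (o + L), Hs α M x y s t ≤
      c * (L : ℝ) ^ 2 * ((Om α M).card : ℝ) ^ 2 →
    0 ≤ lam → 32 * (2 * K) ^ 2 * (c + 8 * θ) ≤ lam ^ 3 →
    |((cnt α M (fun f => f x < f y) : ℝ) - cnt α M (fun f => f y < f x)) / (Om α M).card -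
        om L (winD o L (pm α M x)) (winD o L (pm α M y))| ≤ 4 * K / R + 12 * R * lam + 16 * θ

/-- LV-CORE. Copy of LX-CORE (`Pool/Agent/H36/LX/T/CORE.lean`, or `Pool/Agent/H34/BL/Corex.lean`), with
`S_covL` (window `o`, `L = 2^(J-i+q)` of the class) in place of `S_cov` and `S_pairL` (`K = 2^(q+1)`,
`R = 2^r`, `θ = 2/2^k`) in place of `S_pair` and the window comparison. Bad pairs in `G'`:
`∑_{s,t ∈ window} Hs > c L² T²` (all `Hs ≥ 0` by `fkg`); at most `n / c` of them, and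
`n ≤ κ w ≤ 6 κ 2^17 κ card G'`, so at most `2^20 κ² card G' / c ≤ D card G'`. For `x ≠ y` in `S` the
difference quotient is at least `2 ε - ε/8`, and `4 K/R ≤ ε/4`, `12 R lam ≤ ε/4`, `16 θ ≤ ε/4`; so
`|om| ≥ ε`. (`S_winD` is still used for the properties of the laws `winD`.) -/
def S_corey : Prop :=
  ∀ (α : Type) [Fintype α] [PartialOrder α] (κ : ℕ) (A : Finset α) (ε lam c : ℝ)
    (J₀ D r k q : ℕ),
    1 ≤ κ → IsAntichain (· ≤ ·) (A : Set α) → A.Nonempty → Fintype.card α ≤ κ * A.card →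
    0 < ε → ε ≤ 1 → 1 ≤ D → 0 ≤ lam → 0 < c → 2 ^ (q + 5) / ε ≤ 2 ^ r →
    12 * 2 ^ r * lam ≤ ε / 4 → 32 * ((2 : ℝ) ^ (q + 2)) ^ 2 * (c + 16 / 2 ^ k) ≤ lam ^ 3 →
    2 ^ 20 * (κ : ℝ) ^ 2 ≤ D * c → 128 / ε ≤ 2 ^ k → 1 + 4 * k ≤ 2 ^ q →
    (∀ x ∈ A, ∀ y ∈ A, x ≠ y → 2 * ε < |prob α x y - prob α y x|) →
    ∃ (S : Finset α) (p : α → ℕ → ℝ) (J : ℕ), J₀ ≤ J ∧
      (A.card : ℝ) ≤ 12 * 2 ^ 17 * κ * (2 * D + 1) * S.card ∧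
      (∀ i ∈ S, (∀ s, 0 ≤ p i s) ∧ ∑ s ∈ range (2 ^ J), p i s = 1 ∧
        (∀ s, p i s ≤ 2 ^ (q + 2) / 2 ^ J) ∧ Unim (p i) ∧ LCc (p i)) ∧
      ∀ i ∈ S, ∀ j ∈ S, i ≠ j → ε ≤ |om (2 ^ J) (p i) (p j)|

/-- LV-NUM. Compare `Pool/Agent/H36/LX/T/NUM.lean`. First `k = 220 + ⌈12 log₂ (2/ε)⌉`, so that
`2^54 (1+4k)^5 ≤ 2^(k/2)` and `ε^(-6) ≤ 2^(k/2)`; `1 + 4k ≤ 2^q ≤ 2 (1 + 4 k)`;
`2^(q+5)/ε ≤ 2^r ≤ 2^(q+6)/ε`, `lam = ε/(48 * 2^r) ≥ ε²/(48 * 2^(q+6))`, `c = lam³/(64 * (2^(q+2))²)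
≥ ε^6/2^(5q+45)`, so `16/2^k ≤ c`; `D = ⌈2^20 κ²/c⌉`. Then
`12 * 2^17 κ (2 D + 1) ≤ 2^43 κ³/c ≤ 2^100 κ³ (1+4k)^5 ε^(-6)`, `κ³ ≤ 8 w^(9/10)`, and
`clu2 l (2^(q+2)) ε` as in `S_num6` (`2^(q+2) ≤ C₁ log (2/ε)`). -/
def S_numL : Prop := ∃ C : ℝ, 1 ≤ C ∧
  ∀ (κ w : ℕ) (ε : ℝ), 1 ≤ κ → (κ : ℝ) ^ 10 ≤ 2 ^ 10 * (w : ℝ) ^ 3 → 0 < ε → ε ≤ 1 / 2 →
    Real.exp (C * ε ^ (-(1 / 6 : ℝ)) * Real.log (2 / ε) ^ 2) ≤ w →
    ∃ (l D r k q : ℕ) (lam c : ℝ), 1 ≤ D ∧ 0 ≤ lam ∧ 0 < c ∧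
      2 ^ (q + 5) / ε ≤ 2 ^ r ∧ 12 * 2 ^ r * lam ≤ ε / 4 ∧
      32 * ((2 : ℝ) ^ (q + 2)) ^ 2 * (c + 16 / 2 ^ k) ≤ lam ^ 3 ∧
      2 ^ 20 * (κ : ℝ) ^ 2 ≤ D * c ∧ 128 / ε ≤ 2 ^ k ∧ 1 + 4 * k ≤ 2 ^ q ∧
      12 * 2 ^ 17 * (κ : ℝ) * (2 * D + 1) * clu2 l (2 ^ (q + 2)) ε < w

/-- LV-THM. From `S_corey`, `S_clu2`, `S_numL`: copy of `Pool/Agent/H36/LX/T/THM.lean` with
`κ = ⌈n / w⌉ ≤ w^(3/10) + 1 ≤ 2 w^(3/10)`. -/
def S_thmL : Prop := ∃ C : ℝ, 1 ≤ C ∧ ∀ (w : ℕ) (ε : ℝ), 0 < ε → ε ≤ 1 / 2 →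
    Real.exp (C * ε ^ (-(1 / 6 : ℝ)) * Real.log (2 / ε) ^ 2) ≤ w →
    ∀ (P : Type) [Fintype P] [PartialOrder P] (A : Finset P), IsAntichain (· ≤ ·) (A : Set P) →
      A.card = w → (Fintype.card P : ℝ) ≤ (w : ℝ) ^ (13 / 10 : ℝ) → 1 / 2 - ε ≤ balance P

/-- LV-RATE. From `S_thmL`: copy of `Pool/Agent/H36/LX/T/RATE.lean`. -/
def S_rateL : Prop := ∃ C : ℝ, 1 ≤ C ∧ ∀ (P : Type) [Fintype P] [PartialOrder P] (A : Finset P),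
    IsAntichain (· ≤ ·) (A : Set P) → 16 ≤ A.card →
    (Fintype.card P : ℝ) ≤ (A.card : ℝ) ^ (13 / 10 : ℝ) →
    1 / 2 - (C * (Real.log (Real.log A.card) ^ 2 / Real.log A.card)) ^ 6 ≤ balance P

end Pool.Agent.H36.LV
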